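import Mathlib
import Pool.Agent.R821.BohrBoolean

/-!
# A precompact abelian group which is no continuous image of a reflexive precompact group

Negative answer to Q1: the countable Boolean group with its Bohr topology (the coarsest topology which
makes all homomorphisms to `ℤ/2` continuous) is not a continuous homomorphic image of any reflexive
precompact abelian group. The proof is in `Pool.Agent.R821.BohrBoolean`, where the two definitions
`Precompact` and `Reflexive` are given as well.
-/

set_option autoImplicit false

namespace Pool.Agent.Results.MP_0995d8_gt.NotImageOfReflexive

universe u

open Pool.Agent.R821

/-- **Negative answer to Q1.** There is a precompact Hausdorff abelian group `H` such that no reflexive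
precompact Hausdorff abelian group `G` admits a continuous surjective homomorphism onto `H`. -/
theorem result : ∃ (H : Type) (_ : CommGroup H) (_ : TopologicalSpace H)
    (_ : IsTopologicalGroup H) (_ : T2Space H), Precompact H ∧
    ∀ (G : Type u) [CommGroup G] [TopologicalSpace G] [IsTopologicalGroup G] [T2Space G],
      Precompact G → Reflexive G → ∀ π : G →* H, Continuous π → ¬ Function.Surjective π :=
  exists_not_image

end Pool.Agent.Results.MP_0995d8_gt.NotImageOfReflexive
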